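import Pool.Agent.helper65.GD.SpecF

/-!
# Row XHK of project gf
-/

set_option autoImplicit false

namespace Pool.Agent.GD

open Finset Metric Filter Topology

theorem XHK_mom {N : ℕ} {w : Fin N → ℝ} {x : Fin N → ℂ} (h : Atomic N w x) (m : ℕ) : ‖mom w x m‖ ≤ 1 := by
  obtain ⟨h1, h2, h3⟩ := h
  unfold mom
  refine (norm_sum_le _ _).trans ?_
  rw [← h2]
  refine Finset.sum_le_sum fun l _ => ?_
  rw [norm_mul, norm_pow, h3 l, one_pow, mul_one, Complex.norm_real, Real.norm_eq_abs, abs_of_nonneg (h1 l)]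

theorem XHK_gy {N : ℕ} (w : Fin N → ℝ) (x : Fin N → ℂ) (ω : ℕ → ℂ) (B m : ℕ) :
    ∑ l ∈ range (m + 1), mom w x (B + (m - l)) * ω l = ∑ j, (w j : ℂ) * x j ^ B * gy ω (x j) m := by
  unfold mom gy
  simp only [Finset.sum_mul, Finset.mul_sum]
  rw [Finset.sum_comm]
  refine Finset.sum_congr rfl fun j _ => Finset.sum_congr rfl fun l _ => ?_
  rw [pow_add]
  ring

theorem XHK (h1 : IDA_stmt) (h2 : XGR_stmt) (h3 : XQM_stmt) : XHK_stmt := by
  intro N w x A m hat hA hm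
  obtain ⟨β, hβ⟩ : ∃ β, β = mom w x := ⟨_, rfl⟩
  obtain ⟨a, ha⟩ : ∃ a, a = ex 2 β := ⟨_, rfl⟩
  obtain ⟨ω, hω⟩ : ∃ ω, ω = ex (-2) β := ⟨_, rfl⟩
  have hRa : Rec 2 β a := by rw [ha]; exact ex_rec 2 β
  have hRω : Rec (-2) β ω := by rw [hω]; exact ex_rec (-2) β
  have e1 := h1 2 β a ω A m hRa hRω
  have e2 := hRa.2 A
  have e3 := h3 N w x m hat hm
  obtain ⟨q, hq⟩ : ∃ q, q = ∑ l, w l * ‖gy (ex (-2) (mom w x)) (x l) m‖ := ⟨_, rfl⟩
  rw [← hq] at e3
  have hq0 : 0 ≤ q := by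
    rw [hq]
    exact Finset.sum_nonneg fun l _ => mul_nonneg (hat.1 l) (norm_nonneg _)
  have hga : ∀ n : ℕ, ‖a n‖ ≤ n + 1 := by
    intro n
    rw [ha, hβ]
    exact h2 _ (XHK_mom hat) n
  -- the sum
  have hCC : CC a ω A m = ∑ t ∈ range (m + 1), a (A + t) * ω (m - t) := by
    unfold CC
    rw [← Finset.sum_range_reflect (fun i => a (A + m - i) * ω i)]
    refine Finset.sum_congr rfl fun t ht => ?_
    have ht' : t ≤ m := by have := mem_range.1 ht; omega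
    have f1 : m + 1 - 1 - t = m - t := by omega
    have f2 : A + m - (m - t) = A + t := by omega
    simp only [f1, f2]
  have key : ((A : ℂ) + m) * CC a ω A m = 2 * ∑ k ∈ range A, a k * ∑ j, (w j : ℂ) * x j ^ (A - k) * gy ω (x j) m := by
    have f1 : ((A : ℂ) + m) * CC a ω A m = 2 * ∑ k ∈ range A, ∑ l ∈ range m, β ((A - k) + (m - l)) * a k * ω l + (A : ℂ) * (a A * ω m) := by
      rw [hCC, e1]
      ring
    have f2 : (A : ℂ) * (a A * ω m) = 2 * ∑ k ∈ range A, β (A - k) * a k * ω m := by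
      rw [← mul_assoc, e2, mul_assoc, Finset.sum_mul]
    rw [f1, f2, ← mul_add, ← Finset.sum_add_distrib]
    congr 1
    refine Finset.sum_congr rfl fun k _ => ?_
    rw [← XHK_gy w x ω (A - k) m, ← hβ, Finset.sum_range_succ, Nat.sub_self, add_zero, mul_add, Finset.mul_sum]
    congr 1
    · refine Finset.sum_congr rfl fun l _ => ?_
      ring
    · ring
  have hin : ∀ B, ‖∑ j, (w j : ℂ) * x j ^ B * gy ω (x j) m‖ ≤ q := by
    intro B
    rw [hq, hω, hβ]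
    refine (norm_sum_le _ _).trans (Finset.sum_le_sum fun j _ => ?_)
    rw [norm_mul, norm_mul, norm_pow, hat.2.2 j, one_pow, mul_one, Complex.norm_real, Real.norm_eq_abs, abs_of_nonneg (hat.1 j)]
  have hsum : ∀ n : ℕ, 2 * ∑ k ∈ range n, ((k : ℝ) + 1) = n * (n + 1) := by
    intro n
    induction n with
    | zero => simp
    | succ n ih =>
      rw [Finset.sum_range_succ, mul_add, ih]
      push_cast
      ring
  have hbd : ((A : ℝ) + m) * ‖CC a ω A m‖ ≤ (A : ℝ) * (A + 1) * q := by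
    have f1 : ((A : ℝ) + m) * ‖CC a ω A m‖ = ‖((A : ℂ) + m) * CC a ω A m‖ := by
      rw [norm_mul]
      congr 1
      rw [← Nat.cast_add, ← Nat.cast_add, Complex.norm_natCast]
    rw [f1, key, norm_mul]
    have f2 : ‖(2 : ℂ)‖ = 2 := by simp
    rw [f2]
    calc 2 * ‖∑ k ∈ range A, a k * ∑ j, (w j : ℂ) * x j ^ (A - k) * gy ω (x j) m‖
        ≤ 2 * ∑ k ∈ range A, ((k : ℝ) + 1) * q := by
          refine mul_le_mul_of_nonneg_left ?_ (by norm_num)
          refine (norm_sum_le _ _).trans (Finset.sum_le_sum fun k _ => ?_)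
          rw [norm_mul]
          exact mul_le_mul (hga k) (hin _) (norm_nonneg _) (by positivity)
      _ = (A : ℝ) * (A + 1) * q := by
          rw [← Finset.sum_mul, ← mul_assoc, hsum]
  have hA0 : (0 : ℝ) < (A : ℝ) := by exact_mod_cast hA
  have hA1 : (1 : ℝ) ≤ (A : ℝ) := by exact_mod_cast hA
  have hm0 : (0 : ℝ) ≤ (m : ℝ) := Nat.cast_nonneg _
  rw [← hβ, ← ha, ← hω]
  rw [← hβ] at e3
  obtain ⟨D, hD⟩ : ∃ D, D = 1 - ‖β 1‖ ^ 2 := ⟨_, rfl⟩
  rw [← hD] at e3 ⊢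
  have hD0 : 0 ≤ D := by
    by_contra hcon
    push Not at hcon
    have : D * ((m : ℝ) + 1) * (m + 2) / 6 < 0 := by
      have : D * (((m : ℝ) + 1) * (m + 2) / 6) < 0 := mul_neg_of_neg_of_pos hcon (by positivity)
      linarith
    linarith
  have hfin : ((m : ℝ) + 1) * ‖CC a ω A m‖ ≤ ((m : ℝ) + 1) * ((A : ℝ) * (A + 1) / 2 * D * (((m : ℝ) + 2) / 3)) := by
    calc ((m : ℝ) + 1) * ‖CC a ω A m‖ ≤ ((A : ℝ) + m) * ‖CC a ω A m‖ :=
          mul_le_mul_of_nonneg_right (by linarith) (norm_nonneg _)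
      _ ≤ (A : ℝ) * (A + 1) * q := hbd
      _ ≤ (A : ℝ) * (A + 1) * (D * ((m : ℝ) + 1) * (m + 2) / 6) := mul_le_mul_of_nonneg_left e3 (by positivity)
      _ = ((m : ℝ) + 1) * ((A : ℝ) * (A + 1) / 2 * D * (((m : ℝ) + 2) / 3)) := by ring
  exact le_of_mul_le_mul_left hfin (by positivity)

end Pool.Agent.GD
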